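import Mathlib
import Pool.Agent.Q280.Shift.Basic

/-!
Full answer to Q1 of MP_2aafb6_co: `N(b+k, c+2k, k) = N(b,c,k) + k` for all positive integers
`b, c, k` with `b ≤ c < 2b`.
-/

namespace Pool.Agent.Results.MP_2aafb6_co.ShiftIdentity

/-- The integer sequence `a_0, ..., a_n` is admissible for `b, c`: `0 = a_0 < a_1 < ... < a_n`
and `a_{i+b} ≤ a_i + c` whenever `0 ≤ i` and `i + b ≤ n`. (The sequence is given by a function on
all natural numbers of which only the values at `0, ..., n` are used.) -/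
def Admissible (b c n : ℕ) (a : ℕ → ℤ) : Prop :=
  a 0 = 0 ∧ (∀ i, i < n → a i < a (i + 1)) ∧ ∀ i, i + b ≤ n → a (i + b) ≤ a i + c

/-- The sequence `a_0, ..., a_n` hits `k`: `a_j - a_i = k` for some `0 ≤ i < j ≤ n`. -/
def Hits (k n : ℕ) (a : ℕ → ℤ) : Prop := ∃ i j, i < j ∧ j ≤ n ∧ a j - a i = k

/-- `N(b,c,k)`: the least positive integer `n` such that every admissible sequence
`a_0, ..., a_n` hits `k`; `⊤` (infinity) if there is none. -/
noncomputable def N (b c k : ℕ) : ℕ∞ :=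
  sInf ((fun n : ℕ => (n : ℕ∞)) ''
    {n : ℕ | 0 < n ∧ ∀ a : ℕ → ℤ, Admissible b c n a → Hits k n a})

theorem result : ∀ b c k : ℕ, 0 < b → 0 < c → 0 < k → b ≤ c → c < 2 * b →
    N (b + k) (c + 2 * k) k = N b c k + (k : ℕ∞) ∧ N b c k ≠ ⊤ := by
  intro b c k hb _ hk hbc hc
  exact Pool.Agent.Q280.Shift.main hb hk hbc hc

end Pool.Agent.Results.MP_2aafb6_co.ShiftIdentity
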